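import Pool.Agent.H33.SLC4
import Pool.Agent.H33.SLC5

set_option autoImplicit false

open Set Filter Topology Cardinal Pool.Agent.H33

namespace Pool.Agent.Results.MP_8b5b22_gt.LocallySmall

theorem result (h : SLC1.PFA1) (X : Type) [TopologicalSpace X] [T1Space X]
    (hX : ∀ x : X, ∃ V ∈ 𝓝 x, #V ≤ ℵ_ 1)
    (cwn : ∀ (ι : Type) (F : ι → Set X), (∀ i, IsClosed (F i)) →
      (∀ x : X, ∃ U ∈ 𝓝 x, ∀ i j, (F i ∩ U).Nonempty → (F j ∩ U).Nonempty → i = j) →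
      ∃ V : ι → Set X, (∀ i, IsOpen (V i)) ∧ (∀ i, F i ⊆ V i) ∧
        Pairwise (fun i j => Disjoint (V i) (V j)))
    (hb : ∃ B : ℕ → Set (Set X), TopologicalSpace.IsTopologicalBasis (⋃ n, B n) ∧
      ∀ n, ∀ x : X, ∃ U ∈ 𝓝 x, {b ∈ B n | (b ∩ U).Nonempty}.Countable) :
    TopologicalSpace.MetrizableSpace X := by
  obtain ⟨b, hb, hl⟩ := hb
  choose I a1 a2 a3 using fun n => SLC5.core h hX b hb hl
    {V | {B ∈ b n | (B ∩ V).Nonempty}.Countable}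
    (fun x => (hl n x).imp fun V a => ⟨a.2, a.1⟩) fun _ => {0}
  refine SLC4.main cwn (fun F => ?_) b hb (fun n => Prod.fst '' I n) (fun n => forall_mem_image.2
    fun i hi => ⟨(a1 n i hi).1, ?_⟩) (fun n x => ?_) fun n x =>
      ((a3 n x (finite_singleton _)).image Prod.fst).subset ?_
  · obtain ⟨I, a1, a2, a3⟩ := SLC5.core h hX b hb hl {Set.univ}
      (fun x => ⟨_, rfl, univ_mem⟩) fun x => {_n | x ∈ F}
    have : F = ⋂ n, ⋃ i ∈ {i ∈ I | i.2 = n}, i.1 := by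
      refine (subset_iInter fun n x hx => ?_).antisymm fun z hz => not_not.1 fun e => ?_
      · obtain ⟨i, b1, b2, b3⟩ := a2 x n hx
        exact mem_biUnion (x := i) ⟨b1, b2⟩ b3
      · refine infinite_univ (((a3 z (by simp [e])).image Prod.snd).subset fun n _ => ?_)
        obtain ⟨i, b1, b2⟩ := mem_iUnion₂.1 (mem_iInter.1 hz n)
        exact ⟨i, ⟨b1.1, b2⟩, b1.2⟩
    rw [this]
    exact IsGδ.iInter_of_isOpen fun n => isOpen_biUnion fun i hi => (a1 i hi.1).1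
  · obtain ⟨u, u1, u2⟩ := (a1 n i hi).2
    refine Countable.mono (fun B c => ?_) u1
    exact ⟨c.1, c.2.mono (inter_subset_inter_right _ u2)⟩
  · obtain ⟨i, b1, -, b3⟩ := a2 n x 0 rfl
    exact ⟨_, ⟨i, b1, rfl⟩, b3⟩
  · rintro _ ⟨⟨i, b1, rfl⟩, b2⟩
    exact ⟨i, ⟨b1, b2⟩, rfl⟩

end Pool.Agent.Results.MP_8b5b22_gt.LocallySmall
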